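import Pool.Agent.BEZ.Stmts

/-! # Squad BEZ, row PLC: a place over `z = 1`. -/

set_option autoImplicit false

open Polynomial

namespace Pool.Agent.BEZ.H42

section

variable {O L : Type} [CommRing O] [IsDomain O] [IsDiscreteValuationRing O] [Field L]
  [Algebra O L] [IsFractionRing O L]

theorem ex {π : O} (hπ : Irreducible π) (x : L) (hx : x ≠ 0) :
    ∃ (n : ℤ) (u : Oˣ), x = algebraMap O L u * (algebraMap O L π) ^ n := by
  have hinj : Function.Injective (algebraMap O L) := IsFractionRing.injective O L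
  have hπ0 : algebraMap O L π ≠ 0 := fun h => hπ.ne_zero (hinj (by rw [h, map_zero]))
  obtain ⟨a, b, hb, rfl⟩ := IsFractionRing.div_surjective (A := O) x
  have hb0 : b ≠ 0 := nonZeroDivisors.ne_zero hb
  have ha0 : a ≠ 0 := by
    rintro rfl
    apply hx
    rw [map_zero, zero_div]
  obtain ⟨n, u, hu⟩ := IsDiscreteValuationRing.eq_unit_mul_pow_irreducible ha0 hπ
  obtain ⟨m, v, hv⟩ := IsDiscreteValuationRing.eq_unit_mul_pow_irreducible hb0 hπ
  refine ⟨(n : ℤ) - m, u * v⁻¹, ?_⟩
  have hvu : algebraMap O L (v : O) * algebraMap O L ((v⁻¹ : Oˣ) : O) = 1 := by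
    rw [← map_mul, Units.mul_inv, map_one]
  have hv0 : algebraMap O L (v : O) ≠ 0 := left_ne_zero_of_mul_eq_one hvu
  rw [hu, hv, zpow_sub₀ hπ0, Units.val_mul, map_mul, map_mul, map_mul, map_pow, map_pow,
    zpow_natCast, zpow_natCast, eq_inv_of_mul_eq_one_right hvu]
  field_simp

omit [IsDomain O] [IsDiscreteValuationRing O] in
theorem uq {π : O} (hπ : Irreducible π) (n m : ℤ) (u v : Oˣ)
    (h : algebraMap O L u * (algebraMap O L π) ^ n =
      algebraMap O L v * (algebraMap O L π) ^ m) : n = m ∧ u = v := by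
  have hinj : Function.Injective (algebraMap O L) := IsFractionRing.injective O L
  have hπ0 : algebraMap O L π ≠ 0 := fun h => hπ.ne_zero (hinj (by rw [h, map_zero]))
  have key : ∀ (n m : ℤ) (u v : Oˣ), n < m → algebraMap O L u * (algebraMap O L π) ^ n ≠
      algebraMap O L v * (algebraMap O L π) ^ m := by
    intro n m u v hnm h
    obtain ⟨d, hd⟩ : ∃ d : ℕ, m = n + (d + 1) := ⟨(m - n - 1).toNat, by omega⟩
    rw [hd, zpow_add₀ hπ0] at h
    have h1 : algebraMap O L u = algebraMap O L v * (algebraMap O L π) ^ (((d + 1 : ℕ)) : ℤ) := by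
      have h2 : (algebraMap O L π) ^ n ≠ 0 := zpow_ne_zero n hπ0
      push_cast
      apply mul_right_cancel₀ h2
      rw [h]
      ring
    rw [zpow_natCast, ← map_pow, ← map_mul] at h1
    have h2 := hinj h1
    apply hπ.not_isUnit
    apply isUnit_of_dvd_unit _ u.isUnit
    rw [h2, pow_succ]
    exact ⟨v * π ^ d, by ring⟩
  rcases lt_trichotomy n m with hnm | hnm | hnm
  · exact absurd h (key n m u v hnm)
  · refine ⟨hnm, ?_⟩
    subst hnm
    have h2 : (algebraMap O L π) ^ n ≠ 0 := zpow_ne_zero n hπ0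
    exact Units.ext (hinj (mul_right_cancel₀ h2 h))
  · exact absurd h.symm (key m n v u hnm)

theorem dvr_place {k : Type} [Field k] (φ : k[X] →+* O)
    (hφ : φ (X - 1) ∈ IsLocalRing.maximalIdeal O) (ψ : k[X] →+* L)
    (hψ : ∀ p, ψ p = algebraMap O L (φ p)) :
    ∃ (κ : Type) (_ : Field κ) (_ : Algebra k κ) (ord : L → ℤ) (lc : L → κ),
    (∀ x, x ≠ 0 → lc x ≠ 0) ∧
    (∀ x y, x ≠ 0 → y ≠ 0 → ord (x * y) = ord x + ord y ∧ lc (x * y) = lc x * lc y) ∧
    (∀ p : k[X], p.eval 1 ≠ 0 → ψ p ≠ 0 ∧ ord (ψ p) = 0 ∧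
      lc (ψ p) = algebraMap k κ (p.eval 1)) ∧
    ∀ (J : Type) [Fintype J] (x : J → L) (m : ℤ), (∀ j, x j ≠ 0) → (∀ j, m ≤ ord (x j)) →
      ∑ j, x j = 0 → ∑ j ∈ Finset.univ.filter (fun j => ord (x j) = m), lc (x j) = 0 := by
  classical
  obtain ⟨π, hπ⟩ := IsDiscreteValuationRing.exists_irreducible O
  have hinj : Function.Injective (algebraMap O L) := IsFractionRing.injective O L
  have hπ0 : algebraMap O L π ≠ 0 := fun h => hπ.ne_zero (hinj (by rw [h, map_zero]))
  choose! N U hNU using fun (x : L) (hx : x ≠ 0) => ex hπ x hx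
  -- the value
  have hspec : ∀ (x : L) (hx : x ≠ 0) (n : ℤ) (u : Oˣ),
      x = algebraMap O L u * (algebraMap O L π) ^ n → N x = n ∧ U x = u := by
    intro x hx n u h
    exact uq hπ _ _ _ _ ((hNU x hx).symm.trans h)
  refine ⟨IsLocalRing.ResidueField O, inferInstance,
    ((IsLocalRing.residue O).comp (φ.comp (C : k →+* k[X]))).toAlgebra, N,
    fun x => IsLocalRing.residue O (U x : O), ?_, ?_, ?_, ?_⟩
  · intro x hx h
    rw [IsLocalRing.residue_eq_zero_iff] at h
    exact (IsLocalRing.mem_maximalIdeal _).mp h (U x).isUnit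
  · intro x y hx hy
    have h1 : x * y = algebraMap O L ((U x * U y : Oˣ) : O) * (algebraMap O L π) ^ (N x + N y) := by
      nth_rewrite 1 [hNU x hx, hNU y hy]
      rw [zpow_add₀ hπ0, Units.val_mul, map_mul]
      ring
    obtain ⟨h2, h3⟩ := hspec (x * y) (mul_ne_zero hx hy) _ _ h1
    refine ⟨h2, ?_⟩
    change IsLocalRing.residue O (U (x * y) : O) = _
    rw [h3, Units.val_mul, map_mul]
  · intro p hp
    obtain ⟨q, hq⟩ : ∃ q, p = C (p.eval 1) + (X - 1) * q := by
      have h1 : (X - C 1 : k[X]) ∣ p - C (p.eval 1) := Polynomial.X_sub_C_dvd_sub_C_eval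
      obtain ⟨q, hq⟩ := h1
      refine ⟨q, ?_⟩
      rw [map_one] at hq
      rw [← hq]
      ring
    have hres : IsLocalRing.residue O (φ p) = IsLocalRing.residue O (φ (C (p.eval 1))) := by
      have h2 : IsLocalRing.residue O (φ (X - 1)) = 0 := by
        rw [IsLocalRing.residue_eq_zero_iff]
        exact hφ
      nth_rewrite 1 [hq]
      rw [map_add, map_add, map_mul, map_mul, h2, zero_mul, add_zero]
    have hne : IsLocalRing.residue O (φ (C (p.eval 1))) ≠ 0 := by
      have h3 : IsUnit (C (p.eval 1) : k[X]) := Polynomial.isUnit_C.mpr (isUnit_iff_ne_zero.mpr hp)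
      exact ((h3.map φ).map (IsLocalRing.residue O)).ne_zero
    have hunit : IsUnit (φ p) := by
      by_contra h
      have h4 : φ p ∈ IsLocalRing.maximalIdeal O := (IsLocalRing.mem_maximalIdeal _).mpr h
      rw [← IsLocalRing.residue_eq_zero_iff, hres] at h4
      exact hne h4
    obtain ⟨w, hw⟩ := hunit
    have hx : ψ p ≠ 0 := by
      rw [hψ p, ← hw]
      intro h
      exact w.ne_zero (hinj (by rw [h, map_zero]))
    obtain ⟨h2, h3⟩ := hspec (ψ p) hx 0 w (by rw [zpow_zero, mul_one, hw]; exact hψ p)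
    refine ⟨hx, h2, ?_⟩
    change IsLocalRing.residue O (U (ψ p) : O) = IsLocalRing.residue O (φ (C (p.eval 1)))
    rw [h3, hw, hres]
  · intro J _ x m hx hm hsum
    have hd : ∀ j, ∃ d : ℕ, N (x j) = m + d := fun j =>
      ⟨(N (x j) - m).toNat, by have := hm j; omega⟩
    choose d hd using hd
    have h1 : ∑ j, (U (x j) : O) * π ^ d j = 0 := by
      apply hinj
      rw [map_zero, map_sum]
      have h2 : ∀ j, algebraMap O L ((U (x j) : O) * π ^ d j) =
          (algebraMap O L π) ^ (-m) * x j := by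
        intro j
        nth_rewrite 2 [hNU (x j) (hx j)]
        rw [hd j, zpow_add₀ hπ0, map_mul, map_pow, zpow_natCast, zpow_neg]
        have h3 : (algebraMap O L π) ^ m ≠ 0 := zpow_ne_zero m hπ0
        field_simp
      rw [Finset.sum_congr rfl fun j _ => h2 j, ← Finset.mul_sum, hsum, mul_zero]
    have h2 := congrArg (IsLocalRing.residue O) h1
    rw [map_zero, map_sum] at h2
    rw [Finset.sum_filter]
    refine Eq.trans (Finset.sum_congr rfl fun j _ => ?_) h2
    rw [map_mul, map_pow]
    by_cases hj : N (x j) = m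
    · have h3 : d j = 0 := by have := hd j; omega
      rw [if_pos hj, h3, pow_zero, mul_one]
    · have h3 : d j ≠ 0 := by have := hd j; omega
      have h4 : IsLocalRing.residue O π = 0 := by
        rw [IsLocalRing.residue_eq_zero_iff]
        exact (IsLocalRing.mem_maximalIdeal _).mpr hπ.not_isUnit
      rw [if_neg hj, h4, zero_pow h3, mul_zero]

end

theorem plc : PlcStmt := by
  intro k L _ _ _ _ _
  let _ : Algebra k[X] L := ((algebraMap (FractionRing k[X]) L).comp
    (algebraMap k[X] (FractionRing k[X]))).toAlgebra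
  have _ : IsScalarTower k[X] (FractionRing k[X]) L := IsScalarTower.of_algebraMap_eq' rfl
  have hinjK : Function.Injective (algebraMap k[X] L) :=
    (algebraMap (FractionRing k[X]) L).injective.comp (IsFractionRing.injective k[X] _)
  let B := integralClosure k[X] L
  have hDD : IsDedekindDomain B := integralClosure.isDedekindDomain k[X] (FractionRing k[X]) L
  have hFR : IsFractionRing B L :=
    integralClosure.isFractionRing_of_finite_extension (FractionRing k[X]) L
  have hinjB : Function.Injective (algebraMap k[X] B) := by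
    intro a b h
    apply hinjK
    exact congrArg Subtype.val h
  let M : Ideal k[X] := Ideal.span {X - 1}
  have hM : M.IsMaximal := by
    have h1 := PrincipalIdealRing.isMaximal_of_irreducible (Polynomial.irreducible_X_sub_C (1 : k))
    rw [map_one] at h1
    exact h1
  obtain ⟨P, hP, hPM⟩ := Ideal.exists_ideal_over_maximal_of_isIntegral (S := B) M (by
    rw [(RingHom.injective_iff_ker_eq_bot _).mp hinjB]
    exact bot_le)
  have hPp : P.IsPrime := hP.isPrime
  have hXP : algebraMap k[X] B (X - 1) ∈ P := by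
    have : (X - 1 : k[X]) ∈ P.comap (algebraMap k[X] B) := by
      rw [hPM]
      exact Ideal.subset_span rfl
    exact this
  have hP0 : P ≠ ⊥ := by
    intro h
    rw [h, Ideal.mem_bot] at hXP
    have h1 : (X - 1 : k[X]) = 0 := hinjB (by rw [hXP, map_zero])
    exact Polynomial.X_sub_C_ne_zero (1 : k) (by rw [map_one]; exact h1)
  have hle := P.primeCompl_le_nonZeroDivisors
  let O := Localization.subalgebra.ofField L P.primeCompl hle
  have hloc : IsLocalization P.primeCompl O :=
    Localization.subalgebra.isLocalization_ofField L P.primeCompl hle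
  have hloc' : IsLocalization.AtPrime O P := hloc
  have hdvr : IsDiscreteValuationRing O :=
    IsLocalization.AtPrime.isDiscreteValuationRing_of_dedekind_domain B hP0 O
  have hfr : IsFractionRing O L := Localization.subalgebra.isFractionRing_ofField L P.primeCompl hle
  have hlr : IsLocalRing O := IsLocalization.AtPrime.isLocalRing O P
  have hmem : algebraMap B O (algebraMap k[X] B (X - 1)) ∈ IsLocalRing.maximalIdeal O :=
    (IsLocalization.AtPrime.to_map_mem_maximal_iff O P _).mpr hXP
  exact dvr_place (O := O) (L := L) ((algebraMap B O).comp (algebraMap k[X] B)) hmem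
    ((algebraMap (FractionRing k[X]) L).comp (algebraMap k[X] (FractionRing k[X])))
    (fun p => rfl)

end Pool.Agent.BEZ.H42
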